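import Pool.Agent.Q120.BH.Stm
import Pool.Agent.Q150.TT.TAILT

/-! # Project BH (helper120), job BTAIL (helper225) -/

set_option autoImplicit false

namespace Pool.Agent.Q225.BH

open Finset MeasureTheory Filter Pool.Agent.Q120.ET Pool.Agent.Q120.GM Pool.Agent.Q120.CL Pool.Agent.Q120.MG
  Pool.Agent.Q120.HL Pool.Agent.Q112.LE Pool.Agent.Q120.TT Polynomial Pool.Agent.Q120.BH
open Pool.Agent.Q120.RZ (num' J_TAIL)
open scoped Topology

theorem mono_lt {F : ℤ[X]} {n₀ : ℕ} (hM : Mono F n₀) {a b : ℕ} (ha : n₀ ≤ a) (hab : a < b) :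
    va F a < va F b := by
  induction b, hab using Nat.le_induction with
  | base => exact (hM a ha).2
  | succ b hb ih => exact ih.trans (hM b (by omega)).2

theorem inj_on {F : ℤ[X]} {n₀ : ℕ} (hM : Mono F n₀) {a b : ℕ} (ha : n₀ ≤ a) :
    Set.InjOn (va F) (Ico a b : Set ℕ) := by
  intro x hx y hy hxy
  rw [Finset.coe_Ico, Set.mem_Ico] at hx hy
  rcases lt_trichotomy x y with h | h | h
  · exact absurd hxy (mono_lt hM (by omega) h).ne
  · exact h
  · exact absurd hxy (mono_lt hM (by omega) h).ne'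

theorem t_BTAIL : J_BTAIL := by
  classical
  intro hT F n₀ hM p hp k a b hna hab hblk V t hV ht
  have hmod : IsModel (prodMeasure p) p (trueSet (ι := ℕ)) :=
    isModel p (fun n => (hp n).1) (fun n => (hp n).2)
  obtain ⟨A, hAd⟩ : ∃ A : (ℕ → Bool) → Set ℕ, A = trueSet (ι := ℕ) := ⟨_, rfl⟩
  rw [← hAd] at hmod
  have hA : IsRandomSet A := hmod.meas
  set I : Finset ℕ := (Ico a b).image (va F) with hI
  have hinj := inj_on hM (b := b) hna
  have hhit : ∀ S : Set ℕ, hit S F a b = num' S I := by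
    intro S
    unfold hit num'
    have e : I.filter (fun n => n ∈ S) = ((Ico a b).filter (fun n => va F n ∈ S)).image (va F) := by
      ext v
      rw [mem_filter, hI, mem_image, mem_image]
      constructor
      · rintro ⟨⟨n, hn, rfl⟩, hv⟩
        exact ⟨n, mem_filter.2 ⟨hn, hv⟩, rfl⟩
      · rintro ⟨n, hn, rfl⟩
        rw [mem_filter] at hn
        exact ⟨⟨n, hn.1, rfl⟩, hn.2⟩
    have e2 := Finset.card_image_of_injOn (s := (Ico a b).filter (fun n => va F n ∈ S))
      (f := va F) (hinj.mono (by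
        intro x hx
        rw [Finset.mem_coe, mem_filter] at hx
        exact Finset.mem_coe.2 hx.1))
    rw [← e] at e2
    convert e2.symm using 2
  have hex : ex p F a b = ∑ v ∈ I, p v := by
    unfold Pool.Agent.Q120.BH.ex
    rw [hI, Finset.sum_image hinj]
  have hIb : ∀ v ∈ I, v ∈ block k := by
    intro v hv
    obtain ⟨n, hn, rfl⟩ := Finset.mem_image.1 hv
    exact hblk n hn
  have hnum : ∀ ω, num' ((tr A (block k) ω : Finset ℕ) : Set ℕ) I = num' (A ω) I := by
    intro ω
    unfold num'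
    congr 1
    ext v
    simp only [mem_filter, Finset.mem_coe, mem_tr]
    exact ⟨fun h => ⟨h.1, h.2.2⟩, fun h => ⟨h.1, hIb v h.1, h.2⟩⟩
  have hev := real_event (μ := prodMeasure p) hA (block k)
    (fun T : Finset ℕ => t ≤ |(hit ((T : Finset ℕ) : Set ℕ) F a b : ℝ) - ex p F a b|)
  have hlaw : ∑ T ∈ (block k).powerset with
      t ≤ |(hit ((T : Finset ℕ) : Set ℕ) F a b : ℝ) - ex p F a b|,
        lawOn (prodMeasure p) A (block k) T =
      ∑ T ∈ (block k).powerset with
      t ≤ |(hit ((T : Finset ℕ) : Set ℕ) F a b : ℝ) - ex p F a b|, prodOn p (block k) T := by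
    refine sum_congr rfl fun T hT => ?_
    exact Pool.Agent.Q150.TT.law_model hmod _ _ (mem_powerset.1 (mem_filter.1 hT).1)
  have key := hT (ℕ → Bool) (prodMeasure p) p A hmod I V t (by rw [← hex]; exact hV) ht
  have e : {ω | t ≤ |(hit ((tr A (block k) ω : Finset ℕ) : Set ℕ) F a b : ℝ) - ex p F a b|} =
      {ω | t ≤ |(num' (A ω) I : ℝ) - ∑ n ∈ I, p n|} := by
    ext ω
    simp only [Set.mem_ofPred_eq, hhit, hnum, hex]
  rw [e, hlaw] at hev
  rw [hev] at key
  convert key using 2

end Pool.Agent.Q225.BH
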