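import Pool.Agent.Q120.BH.Stm

/-! # Project BH (helper120), job BHIT (helper225) -/

set_option autoImplicit false

namespace Pool.Agent.Q225.BH

open Finset MeasureTheory Filter Pool.Agent.Q120.ET Pool.Agent.Q120.GM Pool.Agent.Q120.CL Pool.Agent.Q120.MG
  Pool.Agent.Q120.HL Pool.Agent.Q112.LE Pool.Agent.Q120.TT Polynomial Pool.Agent.Q120.BH
open scoped Topology

theorem hit_add (S : Set ℕ) (F : ℤ[X]) {a b : ℕ} (hab : a ≤ b) :
    hit S F 0 b = hit S F 0 a + hit S F a b := by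
  classical
  have h : ∀ a b : ℕ, hit S F a b = ∑ n ∈ Ico a b, if va F n ∈ S then 1 else 0 := by
    intro a b
    unfold hit
    rw [Finset.card_filter]
  rw [h, h, h]
  exact (Finset.sum_Ico_consecutive _ (Nat.zero_le a) hab).symm

theorem hit_pos (S : Set ℕ) (F : ℤ[X]) {a b : ℕ} (h : hit S F 0 a < hit S F 0 b) :
    1 ≤ hit S F a b := by
  rcases le_or_gt a b with hab | hab
  · have := hit_add S F hab
    omega
  · have := hit_add S F hab.le
    omega

theorem P_tendsto {m : ℕ} (hm : 1 ≤ m) :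
    Tendsto (fun k : ℕ => (2 : ℝ) ^ ((k : ℝ) / m)) atTop atTop := by
  have hm0 : (0 : ℝ) < m := by exact_mod_cast hm
  have e : (fun k : ℕ => (2 : ℝ) ^ ((k : ℝ) / m)) =
      fun k : ℕ => Real.exp (Real.log 2 / m * (k : ℝ)) := by
    funext k
    rw [Real.rpow_def_of_pos (by norm_num)]
    congr 1
    ring
  rw [e]
  refine Real.tendsto_exp_atTop.comp ?_
  have : 0 < Real.log 2 := Real.log_pos (by norm_num)
  exact Tendsto.const_mul_atTop (by positivity) tendsto_natCast_atTop_atTop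

theorem t_BHIT : J_BHIT := by
  classical
  intro hMono F m C n₀ S hG hM h
  have hm1 : 1 ≤ F.natDegree := by rw [hG.deg]; exact hG.pos
  obtain ⟨-, ⟨c, hc, hnu⟩, -⟩ := hMono F hm1 hG.lead
  have h1 := hnu n₀ hM
  rw [hG.deg] at h1
  have hm0 : (0 : ℝ) < m := by exact_mod_cast hG.pos
  obtain ⟨ν, hν⟩ : ∃ ν : ℕ → ℕ, ν = fun k => nu F n₀ k := ⟨_, rfl⟩
  obtain ⟨P, hP⟩ : ∃ P : ℕ → ℝ, P = fun k : ℕ => (2 : ℝ) ^ ((k : ℝ) / m) := ⟨_, rfl⟩
  have hP0 : ∀ k, 0 < P k := fun k => by rw [hP]; positivity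
  have hPt : Tendsto P atTop atTop := by rw [hP]; exact P_tendsto hG.pos
  have h1' : Tendsto (fun k => (ν k : ℝ) / P k) atTop (𝓝 c) := by rw [hν, hP]; exact h1
  have hνt : Tendsto (fun k => (ν k : ℝ)) atTop atTop := by
    have a1 := Filter.Tendsto.pos_mul_atTop hc h1' hPt
    refine a1.congr fun k => ?_
    have := (hP0 k).ne'
    field_simp
  have hνn : Tendsto ν atTop atTop := tendsto_natCast_atTop_iff.1 hνt
  have hratio : Tendsto (fun k => (ν (k + 1) : ℝ) / ν k) atTop (𝓝 ((2 : ℝ) ^ (1 / (m : ℝ)))) := by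
    have a1 := h1'.comp (tendsto_add_atTop_nat 1)
    have a2 := (a1.div h1' hc.ne').mul_const ((2 : ℝ) ^ (1 / (m : ℝ)))
    rw [div_self hc.ne', one_mul] at a2
    refine a2.congr' ?_
    filter_upwards [hνt.eventually_gt_atTop 0] with k hk
    have e1 : P (k + 1) = P k * (2 : ℝ) ^ (1 / (m : ℝ)) := by
      rw [hP]
      simp only
      rw [← Real.rpow_add (by norm_num)]
      congr 1
      push_cast
      ring
    have e2 := (hP0 k).ne'
    have e3 : (2 : ℝ) ^ (1 / (m : ℝ)) ≠ 0 := by positivity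
    simp only [Function.comp_apply, Pi.div_apply]
    rw [e1]
    field_simp
  have hlog : Tendsto (fun k => Real.log (ν k : ℝ)) atTop atTop := Real.tendsto_log_atTop.comp hνt
  have hB : 1 < (2 : ℝ) ^ (1 / (m : ℝ)) := Real.one_lt_rpow (by norm_num) (by positivity)
  have hlr : Tendsto (fun k => Real.log (ν (k + 1) : ℝ) / Real.log (ν k : ℝ)) atTop (𝓝 1) := by
    have a1 := (Real.continuousAt_log (by linarith : (2 : ℝ) ^ (1 / (m : ℝ)) ≠ 0)).tendsto.comp hratio
    have a2 := (a1.div_atTop hlog).const_add 1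
    rw [add_zero] at a2
    refine a2.congr' ?_
    filter_upwards [hνt.eventually_gt_atTop 1, (hνt.comp (tendsto_add_atTop_nat 1)).eventually_gt_atTop 1]
      with k hk hk1
    simp only [Function.comp_apply] at hk1 ⊢
    have e1 : 0 < Real.log (ν k : ℝ) := Real.log_pos hk
    rw [Real.log_div (by linarith) (by linarith)]
    field_simp
    ring
  obtain ⟨g, hg⟩ : ∃ g : ℕ → ℝ, g = fun x : ℕ => (hit S F 0 x : ℝ) / (x / Real.log x) := ⟨_, rfl⟩
  have hgt : Tendsto g atTop (𝓝 (C / m)) := by rw [hg]; exact h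
  have hg1 := hgt.comp hνn
  have hg2 := hg1.comp (tendsto_add_atTop_nat 1)
  have hL : 0 < C / m := div_pos hG.Cpos hm0
  have hfin : Tendsto (fun k => g (ν (k + 1)) * (((ν (k + 1) : ℝ) / ν k) /
      (Real.log (ν (k + 1) : ℝ) / Real.log (ν k : ℝ))) - g (ν k)) atTop
      (𝓝 (C / m * ((2 : ℝ) ^ (1 / (m : ℝ)) / 1) - C / m)) :=
    (hg2.mul (hratio.div hlr one_ne_zero)).sub hg1
  have hpos : 0 < C / m * ((2 : ℝ) ^ (1 / (m : ℝ)) / 1) - C / m := by
    rw [div_one]
    nlinarith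
  filter_upwards [hfin.eventually (lt_mem_nhds hpos), hνt.eventually_gt_atTop 1,
    (hνt.comp (tendsto_add_atTop_nat 1)).eventually_gt_atTop 1] with k hk hk0 hk1
  simp only [Function.comp_apply] at hk1
  have l0 : 0 < Real.log (ν k : ℝ) := Real.log_pos hk0
  have l1 : 0 < Real.log (ν (k + 1) : ℝ) := Real.log_pos hk1
  have e1 : g (ν k) * ((ν k : ℝ) / Real.log (ν k)) = hit S F 0 (ν k) := by
    rw [hg]
    simp only
    have : (ν k : ℝ) ≠ 0 := by linarith
    field_simp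
  have e2 : g (ν (k + 1)) * ((ν (k + 1) : ℝ) / Real.log (ν (k + 1))) = hit S F 0 (ν (k + 1)) := by
    rw [hg]
    simp only
    have : (ν (k + 1) : ℝ) ≠ 0 := by linarith
    field_simp
  have hu : 0 < (ν k : ℝ) / Real.log (ν k) := by
    have : (0 : ℝ) < ν k := by linarith
    positivity
  have e3 : ((ν (k + 1) : ℝ) / ν k) / (Real.log (ν (k + 1) : ℝ) / Real.log (ν k : ℝ)) *
      ((ν k : ℝ) / Real.log (ν k)) = (ν (k + 1) : ℝ) / Real.log (ν (k + 1)) := by
    have : (ν k : ℝ) ≠ 0 := by linarith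
    field_simp
  have hk2 := mul_pos hk hu
  rw [sub_mul, mul_assoc, e3, e1, e2] at hk2
  have hlt : hit S F 0 (ν k) < hit S F 0 (ν (k + 1)) := by
    have : (hit S F 0 (ν k) : ℝ) < hit S F 0 (ν (k + 1)) := by linarith
    exact_mod_cast this
  have := hit_pos S F hlt
  rw [hν] at this
  exact this

end Pool.Agent.Q225.BH
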